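import Mathlib

/-!
Squad PLG (MP_1fc801_co), block B: the theorem of Balog, Szemeredi and Gowers in the form which is
needed to pass from bounded doubling to large additive energy.  Complete proofs in the docstrings;
the rows do not depend on each other.
-/

set_option autoImplicit false

namespace Pool.Agent.PLG

open scoped Pointwise

/-- ROW BGR (medium).  Dependent random choice: paths of length four.
PROOF.  `n = |P|`.  For `y ∈ P` let `N(y)` be the set of the `a ∈ P` with `(a, y) ∈ R`, for `a, a' ∈ P`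
let `cd(a,a')` be the number of the `y ∈ P` with `a, a' ∈ N(y)`; the pair `(a, a')` is bad if
`cd(a,a') < n / (32 k²)` (a symmetric condition).  `∑_y |N(y)| = |R| ≥ n²/k`, so
`∑_y |N(y)|² ≥ n³/k²` (Cauchy-Schwarz), and with `bad(y)` = number of the bad pairs in `N(y)²`,
`∑_y bad(y) = ∑_bad cd ≤ n² n/(32 k²)`.  So `∑_y (|N(y)|² - 16 bad(y)) ≥ n³/(2k²)` and some `y` has
`|N(y)|² - 16 bad(y) ≥ n²/(2k²)`.  Let `N = N(y)`, `m = |N| ≥ n/(2k)`, `bad(y) ≤ m²/16`.  Let `P'` be the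
set of the `a ∈ N` with at most `m/8` bad partners `c ∈ N`; fewer than or exactly `m/2` elements of `N` are outside (otherwise
`bad(y) > m²/16`), so `|P'| ≥ m/2 ≥ n/(4k)`.  For `a, a' ∈ P'` at least `m - m/8 - m/8 ≥ m/2` elements `c ∈ N` form
good pairs with `a` and with `a'`; for each of them there are `≥ n/(32k²)` elements `y'` with
`(a, y'), (c, y') ∈ R` and as many `z` with `(c, z), (a', z) ∈ R`:
`(m/2) (n/(32 k²))² ≥ n³/(4096 k⁵)`. -/
def BgrStmt : Prop :=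
  ∀ (α : Type) [DecidableEq α] (P : Finset α) (R : Finset (α × α)) (k : ℝ), P.Nonempty → 1 ≤ k →
    R ⊆ P ×ˢ P → (P.card : ℝ) ^ 2 ≤ k * R.card →
    ∃ P' ⊆ P, (P.card : ℝ) ≤ 4 * k * P'.card ∧ ∀ a ∈ P', ∀ a' ∈ P',
      (P.card : ℝ) ^ 3 ≤ 4096 * k ^ 5 * ((P ×ˢ (P ×ˢ P)).filter (fun p =>
        (a, p.2.1) ∈ R ∧ (p.1, p.2.1) ∈ R ∧ (p.1, p.2.2) ∈ R ∧ (a', p.2.2) ∈ R)).card

/-- ROW POP (easy-medium).  Popular sums.
PROOF.  `r(s)` = number of the `(a, b) ∈ P²` with `a + b = s`.  The energy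
(`Finset.addEnergy P P` = number of the `((a₁, a₂), (b₁, b₂))` with `a₁ + b₁ = a₂ + b₂`) is `∑_s r(s)²`.
`S` = the `s ∈ P + P` with `r(s) ≥ n/(2K)`: the other sums contribute at most `(n/(2K)) n²`, so
`∑_(s ∈ S) r(s)² ≥ n³/(2K)`, and `r(s) ≤ n` gives `|R| = ∑_(s ∈ S) r(s) ≥ n²/(2K)` for
`R` = the pairs with `a + b ∈ S`.  `|S| n/(2K) ≤ ∑ r(s) ≤ n²`. -/
def PopStmt : Prop :=
  ∀ (α : Type) [DecidableEq α] [AddCommGroup α] (P : Finset α) (K : ℝ), P.Nonempty → 1 ≤ K →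
    (P.card : ℝ) ^ 3 ≤ K * Finset.addEnergy P P →
    ∃ S : Finset α, (S.card : ℝ) ≤ 2 * K * P.card ∧
      (P.card : ℝ) ^ 2 ≤ 2 * K * ((P ×ˢ P).filter (fun p => p.1 + p.2 ∈ S)).card

/-- ROW BSG (medium), uses BGR POP.  Balog-Szemeredi-Gowers.
PROOF.  POP gives `S`, `R` = the pairs of `P` with sum in `S`, BGR with `k = 2K`: `P'`,
`|P'| ≥ n/(8K)`.  For `a, a' ∈ P'` every `(c, y, z)` of BGR gives
`a - a' = (a + y) - (c + y) + (c + z) - (a' + z)` with four elements of `S`, and for fixed `a, a'` the map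
`(c, y, z) ↦` (these four elements) is injective.  So every element of `P' - P'` has at least
`n³/(4096 * 32 * K⁵)` representations `s₁ - s₂ + s₃ - s₄`, and
`|P' - P'| ≤ |S|⁴ 2^17 K⁵ / n³ ≤ 2^21 K⁹ n ≤ 2^24 K^10 |P'|`.  Finally
`|P' + P'| ≤ (|P' - P'|/|P'|)² |P'| ≤ 2^48 K^20 |P'|`
(`Finset.pluennecke_ruzsa_inequality_nsmul_sub_nsmul_sub` or the Ruzsa triangle inequality). -/
def BsgStmt : Prop :=
  ∀ (α : Type) [DecidableEq α] [AddCommGroup α] (P : Finset α) (K : ℝ), P.Nonempty → 1 ≤ K →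
    (P.card : ℝ) ^ 3 ≤ K * Finset.addEnergy P P →
    ∃ P' ⊆ P, (P.card : ℝ) ≤ 8 * K * P'.card ∧
      ((P' + P').card : ℝ) ≤ 2 ^ 48 * K ^ 20 * P'.card

end Pool.Agent.PLG
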