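import Pool.Agent.PLG.Defs

/-!
Squad PLG (MP_1fc801_co): the rows, with complete proofs in the docstrings.

THEOREM.  For all `d, K` there are `ε, c > 0` and `A`: `v₁, .., v_d ∈ ℂ` linearly independent over `ℚ`,
`P ⊂ p₀ + {∑ x_i v_i : x ∈ ℤ^d, |x|_B ≤ 1}` for an arbitrary norm of `ℝ^d` (for instance a box with
arbitrary sides), `#{x ∈ ℤ^d : |x|_B ≤ 1} ≤ K |P|`, `P` has at most `ε |P|` distances; then some line
has at least `c sqrt |P| / (log |P|)^A` points of `P`.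

SETTING.  `G` is an additive subgroup of `ℂ`, `f : ℂ →+ E` an additive map to a real normed space,
the size of `x` is `‖f x‖`, all balls `bl f G r` are finite (`Dsc f G`), `cnt f G r` is the number of
elements of the ball, `lp G t` the elements of `G` on the line through `0` of slope `t`, `sp G` the
rational span, `bs f G r` the rational span of the ball.  Facts on these notions are in `Defs.lean`.
All constants `C, A, K ..` are as in the statements; the rows do not depend on each other (the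
statements named in `uses` are hypotheses of the theorem of the row).
-/

set_option autoImplicit false

namespace Pool.Agent.PLG

open Module

/-! ### Packing and growth -/

/-- ROW PKV (easy).  Packing.
PROOF.  Let `F` be the real span of `f (M)` in `E`; with a rational basis `b` of `M` every `x ∈ M` is a
rational combination of `b`, `f` is `ℚ`-linear (`f_rat`), so `F` is spanned by the `f (b_i)` and
`finrank ℝ F ≤ finrank ℚ M`.  Apply `Pool.Agent.FCM.card_le_of_separated` (file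
`Pool.Agent.Helper53_FCM.Pac`, a landed theorem on finite dimensional normed spaces) to the image of `S`
in `F` (`f` is injective on `S` since `δ > 0`); the base `1 + 2R/δ` is `≥ 1`. -/
def PkvStmt : Prop :=
  ∀ (E : Type) [NormedAddCommGroup E] [NormedSpace ℝ E] (f : ℂ →+ E) (M : Submodule ℚ ℂ),
    FiniteDimensional ℚ M → ∀ (S : Finset ℂ) (δ R : ℝ), 0 < δ → 0 ≤ R →
      (∀ x ∈ S, x ∈ M ∧ ‖f x‖ ≤ R) → (∀ x ∈ S, ∀ y ∈ S, x ≠ y → δ ≤ ‖f (x - y)‖) →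
      (S.card : ℝ) ≤ (1 + 2 * R / δ) ^ finrank ℚ M

/-- ROW COV (easy), uses PKV.  Covering.
PROOF.  Let `S` be a maximal subset of `bl f V r` with `r' ≤ ‖f (x - y)‖` for different `x, y ∈ S`
(`Finset` induction or `exists_maximal`).  Every `x ∈ bl f V r` has an `s ∈ S` with `‖f (x - s)‖ ≤ r'`,
so `x - s ∈ bl f V r'`: `cnt f V r ≤ |S| cnt f V r'`.  PKV with `M = bs f V r`, `R = r`, `δ = r'`. -/
def CovStmt : Prop :=
  ∀ (E : Type) [NormedAddCommGroup E] [NormedSpace ℝ E] (f : ℂ →+ E) (V : AddSubgroup ℂ)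
    (r r' : ℝ) (k : ℕ), Dsc f V → 0 ≤ r → 0 < r' → finrank ℚ (bs f V r) ≤ k →
      (cnt f V r : ℝ) ≤ (1 + 2 * r / r') ^ k * cnt f V r'

/-- ROW SEP (easy), uses PKV.  PROOF.  PKV with `S = bl f V r`, `M = bs f V r`. -/
def SepStmt : Prop :=
  ∀ (E : Type) [NormedAddCommGroup E] [NormedSpace ℝ E] (f : ℂ →+ E) (V : AddSubgroup ℂ)
    (r δ : ℝ) (k : ℕ), Dsc f V → 0 ≤ r → 0 < δ → (∀ x ∈ V, x ≠ 0 → δ ≤ ‖f x‖) →
      finrank ℚ (bs f V r) ≤ k → (cnt f V r : ℝ) ≤ (1 + 2 * r / δ) ^ k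

/-- ROW RNK (easy-medium).  The real rank of a discrete group is at least the rational rank.
PROOF.  Take `x₁, .., x_k ∈ bl f V r` rationally independent, `k = finrank ℚ (bs f V r)`
(`Submodule.exists_fun_fin_finrank_span_eq` or `exists_linearIndependent`).  Let `F` be the real span
of `f '' bl f V r`, `k' = finrank ℝ F`, suppose `k' < k`.  Let `δ > 0` be smaller than the sizes of
the finitely many nonzero elements of `bl f V 1` (they are positive by `norm_pos`) and `δ ≤ 1`; so every nonzero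
element of `V` has size `≥ δ`.  The `(N+1)^k` elements `∑ n_i x_i`, `0 ≤ n_i ≤ N`, are different, of size
`≤ k N r`, and their images in `F` are `δ`-separated, so `(N+1)^k ≤ (1 + 2 k N r/δ)^k'`
(`Pool.Agent.FCM.card_le_of_separated` from `Pool.Agent.Helper53_FCM.Pac`), false for large `N`. -/
def RnkStmt : Prop :=
  ∀ (E : Type) [NormedAddCommGroup E] [NormedSpace ℝ E] (f : ℂ →+ E) (V : AddSubgroup ℂ) (r : ℝ),
    Dsc f V → finrank ℚ (bs f V r) ≤ finrank ℝ (Submodule.span ℝ (f '' (bl f V r : Set ℂ)))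

/-- ROW GRO (medium-strong), uses RNK.  Growth in the thick case.
PROOF.  Let `F` be the real span of `f '' bl f G τ` (finite dimensional), it contains `f x` for all
`x ∈ G` (`f_rat`), `dim F = d` (`≥ d` by RNK, `≤ d` since `bs f G τ` has a rational basis in the ball and
`f` is `ℚ`-linear).  Take a real basis of `F` among the `f x_i`, `x_i ∈ bl f G τ`.  So every `w ∈ F` has an `x ∈ G`
with `‖w - f x‖ ≤ d τ` (`w = ∑ c_i f x_i`, `x = ∑ ⌊c_i⌋ x_i`).  Let `Y ⊂ bl f G (1/2)` be maximal with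
`2r < ‖f (y - y')‖` for different `y, y' ∈ Y`.  The sets `y + bl f G r` are disjoint and contained in
`bl f G 1`: `|Y| cnt f G r ≤ cnt f G 1`.  Every `w ∈ F` with `‖w‖ ≤ 1/2 - dτ` is at distance
`≤ 2r + dτ` of some `f y`, `y ∈ Y`; volumes in `F` (`MeasureTheory.Measure.addHaar`, `addHaar_closedBall`):
`(1/2 - dτ)^d ≤ |Y| (2r + dτ)^d`.  Here `dτ ≤ dr ≤ 1/8`, so `1/2 - dτ ≥ 1/4` and `2r + dτ ≤ (d+2) r`:
`1 ≤ |Y| (4 (d+2) r)^d`.  (`d = 0`: `G` is trivial, both sides are `1`.) -/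
def GroStmt : Prop :=
  ∀ (E : Type) [NormedAddCommGroup E] [NormedSpace ℝ E] (f : ℂ →+ E) (G : AddSubgroup ℂ)
    (d : ℕ) (τ r : ℝ), Dsc f G → 0 < τ → τ ≤ r → 8 * (d + 1) * r ≤ 1 →
      finrank ℚ (bs f G τ) = d → (∀ x ∈ G, x ∈ bs f G τ) →
      (cnt f G r : ℝ) ≤ (4 * (d + 2) * r) ^ d * cnt f G 1

/-! ### Solymosi sums -/

/-- ROW SOL (easy).  Sums of elements of consecutive lines are different.
PROOF.  `t_i * (x+y).re < (x+y).im < t_(i+1) * (x+y).re`.  If `i < i'` then `t_(i+1) ≤ t_(i')`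
(monotonicity along `i+1 ≤ i' ≤ n`), contradiction to `x + y = x' + y'`; so `i = i'` and `x - x' = y' - y` is on the
lines of slopes `t_i ≠ t_(i+1)`, so it is `0` (`eq_zero_of_slopes`). -/
def SolStmt : Prop :=
  ∀ (n : ℕ) (t : ℕ → ℝ) (S : ℕ → Finset ℂ), (∀ i < n, t i < t (i + 1)) →
    (∀ i ≤ n, ∀ x ∈ S i, x.im = t i * x.re ∧ 0 < x.re) →
    ∀ i i' : ℕ, i < n → i' < n → ∀ x ∈ S i, ∀ y ∈ S (i + 1), ∀ x' ∈ S i', ∀ y' ∈ S (i' + 1),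
      x + y = x' + y' → i = i' ∧ x = x' ∧ y = y'

/-- ROW SLC (easy-medium), uses SOL.
PROOF.  Sort `Θ` (`Finset.orderEmbOfFin`), `t_0 < .. < t_n`, `n + 1 = |Θ|` (if `Θ` is empty or has one element the
left side is `≤ 0`), `S_i = ps f (lp G t_i) r` has `(cnt - 1)/2 ≥ cnt/3 ≥ q/3` elements (`card_ps_lp`,
`cnt ≥ 3`).  The map `(i, x, y) ↦ x + y` is injective (SOL) into `bl f G (2r)`:
`n (q/3)² ≤ cnt f G (2r)`. -/
def SlcStmt : Prop :=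
  ∀ (E : Type) [NormedAddCommGroup E] [NormedSpace ℝ E] (f : ℂ →+ E) (G : AddSubgroup ℂ)
    (Θ : Finset ℝ) (r q : ℝ), Dsc f G → 0 ≤ r → 3 ≤ q → (∀ t ∈ Θ, q ≤ cnt f (lp G t) r) →
      ((Θ.card : ℝ) - 1) * q ^ 2 ≤ 9 * cnt f G (2 * r)

/-! ### Transfer and multiplication -/

/-- a narrow family of lines: each line of `W` has at least `j` elements of size `≤ 1` and the cone of
`W` has at most `H j² / 9` elements of size `≤ 6` -/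
structure Nar {E : Type} [NormedAddCommGroup E] (f : ℂ →+ E) (G : AddSubgroup ℂ) (W : Finset ℝ)
    (j H : ℝ) : Prop where
  dsc : Dsc f G
  hj : 3 ≤ j
  hH : 1 ≤ H
  lines : ∀ t ∈ W, j ≤ cnt f (lp G t) 1
  narrow : ∃ a b : ℝ, (∀ t ∈ W, a ≤ t ∧ t ≤ b) ∧ 9 * ((cone f G 6 a b).card : ℝ) ≤ H * j ^ 2

/-- ROW TRA (medium-strong).  Transfer.
PROOF.  `S_i = ps f (lp G t_i) 1` (`i = 1, 2, 3`) has `≥ j/3` elements (`card_ps_lp`).  `x = 0` is trivial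
(`c = 1`); by symmetry `x.re > 0` (replace `x, y, z` by their negatives), `‖f x‖ > 0`.
(1) `B = S₂ + S₃` (pointwise sum of finsets) has `|S₂||S₃| ≥ j²/9` elements (the lines intersect in `0`);
`S₁ + B` is contained in the cone (size `≤ 3`, real part positive, slope between `a` and `b`), so
`|S₁ + B| ≤ H j²/9 ≤ H |B|`.  Ruzsa's covering lemma (`Finset.ruzsa_covering_add`): `S₁ ⊂ F + (B - B)` with
`|F| ≤ H`.
(2) If `x' ∈ lp G t₁`, `x'.re > 0` and `‖f x'‖ (H+1) ≤ 1` then the `⌊H⌋ + 1` multiples `n x'`,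
`1 ≤ n ≤ ⌊H⌋ + 1`, are in `S₁`, two of them are in the same translate: there is `1 ≤ c ≤ H` with
`c x' = y' + z'`, `y' ∈ lp G t₂`, `z' ∈ lp G t₃`, `‖f y'‖, ‖f z'‖ ≤ 4` (an element of `(B - B) - (B - B)`).
(3) By (2) for `x' = x` there is a least `c₀ ≥ 1` with `c₀ x = y + z`, `y ∈ lp G t₂`,
`z ∈ lp G t₃`, and `c₀ ≤ H`; and every integer `c` with `c x ∈ lp G t₂ + lp G t₃` is a multiple of `c₀` (the remainder
of the division by `c₀` has the same property).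
(4) Let `m = ⌊1/((H+1) ‖f x‖)⌋ ≥ 1`, so `m ≥ 1/(2 (H+1) ‖f x‖)`.  (2) for `x' = m x`: `c m x = y' + z'`,
`c m = c₀ q`, so `y' = q y`, `z' = q z` (uniqueness, `eq_zero_of_slopes`), and
`‖f y‖ = ‖f y'‖ / q ≤ 4 c₀/(c m) ≤ 4 H/m ≤ 8 H (H+1) ‖f x‖ ≤ 16 H² ‖f x‖`; the same for `z`. -/
def TraStmt : Prop :=
  ∀ (E : Type) [NormedAddCommGroup E] [NormedSpace ℝ E] (f : ℂ →+ E) (G : AddSubgroup ℂ)
    (W : Finset ℝ) (j H t₁ t₂ t₃ : ℝ), Nar f G W j H → t₁ ∈ W → t₂ ∈ W → t₃ ∈ W →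
      t₁ ≠ t₂ → t₁ ≠ t₃ → t₂ ≠ t₃ → ∀ x ∈ lp G t₁, ‖f x‖ * (H + 1) ≤ 1 →
      ∃ c : ℕ, 1 ≤ c ∧ (c : ℝ) ≤ H ∧ ∃ y ∈ lp G t₂, ∃ z ∈ lp G t₃, (c : ℂ) * x = y + z ∧
        ‖f y‖ ≤ 16 * H ^ 2 * ‖f x‖ ∧ ‖f z‖ ≤ 16 * H ^ 2 * ‖f x‖

/-- `w` multiplies `x` in `V` with the denominator and the factor `≤ K` -/
def Mlt {E : Type} [NormedAddCommGroup E] (f : ℂ →+ E) (V : AddSubgroup ℂ) (K w : ℝ) (x : ℂ) :
    Prop :=
  ∃ c : ℕ, 1 ≤ c ∧ (c : ℝ) ≤ K ∧ (((c : ℝ) * w : ℝ) : ℂ) * x ∈ V ∧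
    ‖f ((((c : ℝ) * w : ℝ) : ℂ) * x)‖ ≤ K * ‖f x‖

/-- ROW MUL (medium), uses TRA.  Multiplication by `lam t₁ t₂ k l`.
PROOF.  Let `r_k = (k - t₁)/(k - t₂)`, `r_l` the same, `q = r_k / r_l`.  TRA for `(t₁, k, t₂)`:
`c x = w + z`, `w ∈ lp G k`, `z ∈ lp G t₂`.  Real parts: `c a = w.re + z.re` and imaginary parts
`t₁ c a = k w.re + t₂ z.re` (`a = x.re`) give `z.re = r_k c a`.  `‖f z‖ ≤ 16 H² ‖f x‖`, so `‖f z‖ (H+1) ≤ 1`.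
TRA for `(t₂, l, t₁)`: `c' z = w' + y`, `w' ∈ lp G l`, `y ∈ lp G t₁`; in the same way
`t₂ c' z.re = l w'.re + t₁ y.re`, `c' z.re = w'.re + y.re`: `y.re (l - t₁) = c' z.re (l - t₂)`, so
`y.re = c' z.re / r_l = c c' q a`: so `y = c c' q x` (`eq_of_re`), `1 ≤ c c' ≤ H² ≤ 256 H⁴`,
`‖f y‖ ≤ (16 H²)² ‖f x‖`. -/
def MulStmt : Prop :=
  ∀ (E : Type) [NormedAddCommGroup E] [NormedSpace ℝ E] (f : ℂ →+ E) (G : AddSubgroup ℂ)
    (W : Finset ℝ) (j H t₁ t₂ q : ℝ), Nar f G W j H → t₁ ∈ W → t₂ ∈ W → t₁ ≠ t₂ →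
      q ∈ Rat4 W t₁ t₂ → ∀ x ∈ lp G t₁, 256 * H ^ 4 * ‖f x‖ ≤ 1 →
      Mlt f (lp G t₁) (256 * H ^ 4) q x

/-- ROW WRD (easy).  Words.  PROOF.  Induction on the list: for `q :: l` first multiply by `l.prod`
(`y = c l.prod x`, `‖f y‖ ≤ K ^ l.length ‖f x‖`, so `K ‖f y‖ ≤ 1`), then `y` by `q`. -/
def WrdStmt : Prop :=
  ∀ (E : Type) [NormedAddCommGroup E] [NormedSpace ℝ E] (f : ℂ →+ E) (V : AddSubgroup ℂ)
    (Q : Set ℝ) (K : ℝ), 1 ≤ K → (∀ q ∈ Q, ∀ x ∈ V, K * ‖f x‖ ≤ 1 → Mlt f V K q x) →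
      ∀ l : List ℝ, (∀ q ∈ l, q ∈ Q) → ∀ x ∈ V, K ^ (l.length + 1) * ‖f x‖ ≤ 1 →
        Mlt f V (K ^ l.length) l.prod x

/-- ROW GEN (medium).  Short words generate.
PROOF.  `U_m` = rational span of the products of the lists of length `≤ m` of elements of `Q`, so
`U_0 = ℚ`, `U_m ≤ U_(m+1)`, `U_(m+1) = U_m + Q U_m`.  If `U_(m+1) = U_m` then `U_m` is closed under the
multiplication by `Q`, contains `1`, so it is the whole algebra.  Otherwise the dimension grows by at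
least `1`: so `U_e` is the whole algebra (dimension `e`).  The products of the lists of length `≤ e`
span it: choose a basis among them (`exists_linearIndependent`, reindex by `Fin e`). -/
def GenStmt : Prop :=
  ∀ (Q : Set ℝ) (e : ℕ), FiniteDimensional ℚ (Algebra.adjoin ℚ Q) →
    finrank ℚ (Algebra.adjoin ℚ Q) = e →
    ∃ w : Fin e → ℝ, LinearIndependent ℚ w ∧
      ∀ i, ∃ l : List ℝ, l.length ≤ e ∧ (∀ q ∈ l, q ∈ Q) ∧ w i = l.prod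

/-! ### Algebra of a block -/

/-- `M` is the sum of any two of its lines with slopes in `W` -/
def Two (M : Submodule ℚ ℂ) (W : Finset ℝ) : Prop :=
  ∀ s ∈ W, ∀ t ∈ W, s ≠ t → M ≤ (M ⊓ sl s) ⊔ (M ⊓ sl t)

/-- the point of the line of slope `t` with the same real part -/
noncomputable def sh (t : ℝ) (y : ℂ) : ℂ := ⟨y.re, t * y.re⟩

/-- ROW GRF (easy-medium).  Graphs.  `r = (k - t₁)/(k - t₂)`.
PROOF.  (a) `y ∈ M`, so `y = m + z` with `m ∈ M ⊓ sl k`, `z ∈ M ⊓ sl t₂`.  Real and imaginary parts: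
`y.re = m.re + z.re`, `t₁ y.re = k m.re + t₂ z.re`, so `z.re = r y.re`, `z = r sh t₂ y`, `m = y - z`.
(b) `z ∈ M`, so `z = m + y'`, `m ∈ M ⊓ sl k`, `y' ∈ M ⊓ sl t₁`: `t₂ z.re = k m.re + t₁ y'.re`,
`z.re = m.re + y'.re`: `(k - t₂) z.re = (k - t₁) y'.re`, so `z.re = r y'.re`: take `y'`.
(c) `m = y' + z'` with `y' ∈ M ⊓ sl t₁`, `z' ∈ M ⊓ sl t₂`: `z'.re = - r y'.re`. -/
def GrfStmt : Prop :=
  ∀ (M : Submodule ℚ ℂ) (W : Finset ℝ) (t₁ t₂ k : ℝ), Two M W → t₁ ∈ W → t₂ ∈ W → k ∈ W →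
    t₁ ≠ t₂ → k ≠ t₁ → k ≠ t₂ →
    (∀ y ∈ M ⊓ sl t₁, (((k - t₁) / (k - t₂) : ℝ) : ℂ) * sh t₂ y ∈ M ∧
      y - (((k - t₁) / (k - t₂) : ℝ) : ℂ) * sh t₂ y ∈ sl k) ∧
    (∀ z ∈ M ⊓ sl t₂, ∃ y ∈ M ⊓ sl t₁, z = (((k - t₁) / (k - t₂) : ℝ) : ℂ) * sh t₂ y) ∧
    (∀ m ∈ M ⊓ sl k, ∃ y ∈ M ⊓ sl t₁, m = y - (((k - t₁) / (k - t₂) : ℝ) : ℂ) * sh t₂ y)

/-- ROW ALG (easy-medium), uses GRF.  The algebra acts on the lines.
PROOF.  (1) `q = lam t₁ t₂ k l = r_k / r_l`, `y ∈ M ⊓ sl t₁`: `z = r_k sh t₂ y ∈ M ⊓ sl t₂` (GRF (a)) is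
`r_l sh t₂ y'` with `y' ∈ M ⊓ sl t₁` (GRF (b) for `l`), so `y'.re = q y.re`, `q y = y' ∈ M`.
(2) the real numbers `q` with `q y ∈ M` for all `y ∈ M ⊓ sl t₁` form a subalgebra over `ℚ` (note that
`q y` is again in `sl t₁`), so it contains `adjoin ℚ (Rat4 W t₁ t₂)` (`Algebra.adjoin_le`).
(3) `t = t₁`: done.  `t = t₂` or `t = k` another slope: if there is no third slope in `W` then `Rat4` is
empty and `q` is rational.  Otherwise `x = r_k sh t₂ y` (GRF (b)), `q x = r_k sh t₂ (q y) ∈ M` (GRF (a)); and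
for the slope `k`: `x = y - r_k sh t₂ y`, `q x = q y - r_k sh t₂ (q y) ∈ M`. -/
def AlgStmt : Prop :=
  ∀ (M : Submodule ℚ ℂ) (W : Finset ℝ) (t₁ t₂ : ℝ), Two M W → t₁ ∈ W → t₂ ∈ W → t₁ ≠ t₂ →
    ∀ q ∈ Algebra.adjoin ℚ (Rat4 W t₁ t₂), ∀ t ∈ W, ∀ x ∈ M ⊓ sl t, ((q : ℝ) : ℂ) * x ∈ M

/-- ROW PRA (medium-strong), uses GRF ALG.  A projection which preserves all the lines of a block.
PROOF.  `F = Algebra.adjoin ℚ (Rat4 W t₁ t₂)`.  `F` acts on the finite dimensional space `M ⊓ sl t₁` (ALG),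
`q ↦ q x` is injective, so `F` is finite dimensional over `ℚ`, a subring of `ℝ`, so it is a field
(`Subalgebra.isField_of_algebraic` or: a finite dimensional domain).  `y.re` is not in `F x.re` (if
`y.re = q x.re` then `y = q x` by `eq_of_re`), `x.re ≠ 0`, so there is an `F`-linear map `φ : ℝ → F` with
`φ (x.re) = 0`, `φ (y.re) = 1` (`Submodule.exists_le_ker_of_notMem` or a basis of `ℝ` over `F`).
Put `r = (t₃ - t₁)/(t₃ - t₂)`, and for `m ∈ ℂ` let `α m = (t₂ m.re - m.im)/(t₂ - t₁)`,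
`β m = (m.im - t₁ m.re)/(t₂ - t₁)` (so `m = α m (1 + i t₁) + β m (1 + i t₂)`), and
`π m = φ (α m) y + r φ (β m / r) sh t₂ y`, an additive map.
`m ∈ M ⊓ sl t₁`: `α m = m.re`, `β m = 0`, `π m = φ (m.re) y`, of slope `t₁`; `π x = 0`, `π y = y ≠ 0`
(`y ≠ 0` since `0 = 0 x`).
`m ∈ M ⊓ sl t₂`: `α m = 0`, `β m = m.re`: `π m = φ (m.re / r) r sh t₂ y` has slope `t₂`; for
`m = r sh t₂ y ∈ M` (GRF (a) for `k = t₃`) it is `r sh t₂ y ≠ 0`.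
`m ∈ M ⊓ sl k`, `k ≠ t₁, t₂`: `β m = - r_k α m` with `r_k = (k - t₁)/(k - t₂)`, `r_k / r ∈ F`, so
`φ (β m / r) = - (r_k / r) φ (α m)` and `π m = φ (α m) (y - r_k sh t₂ y)`, of slope `k`; for
`m = y - r_k sh t₂ y ∈ M ⊓ sl k` (GRF (a)) we have `α m = y.re`, `π m = m ≠ 0` (`α m ≠ 0`). -/
def PraStmt : Prop :=
  ∀ (M : Submodule ℚ ℂ) (W : Finset ℝ) (t₁ t₂ t₃ : ℝ) (x y : ℂ), FiniteDimensional ℚ M →
    Two M W → t₁ ∈ W → t₂ ∈ W → t₃ ∈ W → t₁ ≠ t₂ → t₁ ≠ t₃ → t₂ ≠ t₃ →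
    x ∈ M ⊓ sl t₁ → y ∈ M ⊓ sl t₁ → x ≠ 0 →
    (∀ q ∈ Algebra.adjoin ℚ (Rat4 W t₁ t₂), ((q : ℝ) : ℂ) * x ≠ y) →
    ∃ π : ℂ →+ ℂ, (∀ t ∈ W, ∀ m ∈ M ⊓ sl t, (π m).im = t * (π m).re) ∧ π x = 0 ∧
      ∀ t ∈ W, ∃ m ∈ M ⊓ sl t, π m ≠ 0

/-! ### Counting in a block -/

/-- the output of PRF for one line -/
def Fib {E : Type} [NormedAddCommGroup E] (f : ℂ →+ E) (G : AddSubgroup ℂ) (π : ℂ →+ ℂ)
    (t j : ℝ) : Prop :=
  ∃ σ : ℝ, (σ = 1 ∨ σ = -1) ∧ ∃ Y U : Finset ℂ,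
    (∀ y ∈ Y, y ∈ lp G t ∧ ‖f y‖ ≤ 1 ∧ 0 < y.re ∧ (π y).im = t * (π y).re ∧ 0 < σ * (π y).re) ∧
    Set.InjOn π Y ∧ (∀ u ∈ U, u ∈ lp G t ∧ ‖f u‖ ≤ 2 ∧ 0 < u.re ∧ π u = 0) ∧
    j ≤ 18 * ((Y.card : ℝ) * U.card)

/-- ROW PRF (medium).  One line: image and kernel.
PROOF.  `V = lp G t`, `g` = number of the values of `π` on `bl f V 1`, `h` = number of
`x ∈ bl f V 2` with `π x = 0`.  A fibre of `π` on `bl f V 1` is contained in (a point of it) `+` (the `h` elements), so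
`j ≤ cnt f V 1 ≤ g h`.  The nonzero values have real part `≠ 0` (slope `t`, `eq_zero_of_re`) and are symmetric
(`π (-x) = - π x`): let `Z` be the values with positive real part, `g = 2|Z| + 1`, `|Z| ≥ 1` by the last
hypothesis, so `g ≤ 3|Z|`.  For `z ∈ Z` choose `y_z ∈ bl f V 1` with `π y_z = z`; `y_z ≠ 0`, so
`y_z.re ≠ 0`.  `Y₊` = the `y_z` with `y_z.re > 0` (`σ = 1`), `Y₋` = the `- y_z` with `y_z.re < 0` (`σ = -1`);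
`|Y₊| + |Y₋| = |Z|`, take the larger one: `g ≤ 6 |Y|`.  `U` = the `x ∈ bl f V 2` with `π x = 0`, `x.re > 0`:
`h = 2|U| + 1 ≤ 3|U|` (as in `card_ps`; `|U| ≥ 1`).  So `j ≤ g h ≤ 18 |Y||U|`. -/
def PrfStmt : Prop :=
  ∀ (E : Type) [NormedAddCommGroup E] [NormedSpace ℝ E] (f : ℂ →+ E) (G : AddSubgroup ℂ)
    (π : ℂ →+ ℂ) (t j : ℝ), Dsc f G → j ≤ cnt f (lp G t) 1 →
      (∀ x ∈ lp G t, (π x).im = t * (π x).re) →
      (∃ y ∈ lp G t, y ≠ 0 ∧ ‖f y‖ ≤ 2 ∧ π y = 0) → (∃ y ∈ lp G t, ‖f y‖ ≤ 1 ∧ π y ≠ 0) →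
      Fib f G π t j

/-- ROW PRC (medium-strong), uses SOL.  The product argument.
PROOF.  For every `t ∈ W` choose `σ_t, Y_t, U_t`.  One of the signs, `σ`, occurs for `s' ≥ s/2` slopes
(`s = |W|`); sort these: `t_0 < .. < t_n`, `n = s' - 1 ≥ s/2 - 1 ≥ s/4`.  Write `Y_i, U_i`.  Consider the
`(p, u, u', q, y, y')`, `p, q < n`, `u ∈ U_p`, `u' ∈ U_(p+1)`, `y ∈ Y_q`, `y' ∈ Y_(q+1)` and the element
`x = u + u' + y + y'` of `cone f G 6 a b` (size `≤ 2+2+1+1`, real part positive, slope between `a` and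
`b` because all four summands have slopes in `[a, b]` and positive real parts).  The map is injective:
`π x = π y + π y'`, and SOL applied to the finsets `σ π (Y_i)` (slope `t_i`, real part positive) gives
`q`, `π y`, `π y'`, so `y, y'` (`InjOn`); then `u + u' = x - y - y'` and SOL for the `U_i` gives
`p, u, u'`.  So with `α_i = |Y_i||Y_(i+1)|`, `β_i = |U_i||U_(i+1)|`: `(∑ α_q)(∑ β_p) ≤ |cone|`, and by Cauchy-Schwarz
`(∑ α)(∑ β) ≥ (∑ sqrt (α_i β_i))² ≥ (n j/18)²` (`α_i β_i = |Y_i||U_i| |Y_(i+1)||U_(i+1)| ≥ (j/18)²`).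
So `(s j / 72)² ≤ |cone|`, `72² = 5184`. -/
def PrcStmt : Prop :=
  ∀ (E : Type) [NormedAddCommGroup E] [NormedSpace ℝ E] (f : ℂ →+ E) (G : AddSubgroup ℂ)
    (W : Finset ℝ) (π : ℂ →+ ℂ) (a b j : ℝ), Dsc f G → 4 ≤ W.card → 0 ≤ j →
      (∀ t ∈ W, a ≤ t ∧ t ≤ b) → (∀ t ∈ W, Fib f G π t j) →
      ((W.card : ℝ) * j) ^ 2 ≤ 5184 * (cone f G 6 a b).card

/-- a good block of slopes -/
structure Blk {E : Type} [NormedAddCommGroup E] (f : ℂ →+ E) (G : AddSubgroup ℂ) (W : Finset ℝ)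
    (e : ℕ) (ρ j B : ℝ) : Prop where
  dsc : Dsc f G
  fin : FiniteDimensional ℚ (sp G)
  rk : finrank ℚ (sp G) = 2 * e
  he : 1 ≤ e
  hρ : ρ ≤ 1
  hj : 3 ≤ j
  hB : 1 ≤ B
  lines : ∀ t ∈ W, j ≤ cnt f (lp G t) 1
  rank : ∀ t ∈ W, finrank ℚ (bs f (lp G t) ρ) = e
  large : 5184 * B + 5 ≤ W.card
  narrow : ∃ a b : ℝ, (∀ t ∈ W, a ≤ t ∧ t ≤ b) ∧
    ((cone f G 6 a b).card : ℝ) ≤ B * W.card * j ^ 2

/-- ROW BLA (easy-medium).  The lines of a block.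
PROOF.  `bs f (lp G t) ρ ≤ sp G ⊓ sl t` (the ball is in `G` and in `sl t`), so
`e ≤ finrank (sp G ⊓ sl t)`.  For `s ≠ t` in `W` the spaces `sp G ⊓ sl s`, `sp G ⊓ sl t` are disjoint
(`eq_zero_of_slopes`) and contained in `sp G`, so their dimensions add up to at most `2e`: both are `e`
(`W` has at least two elements), `sp G ⊓ sl t = bs ..` (`Submodule.eq_of_le_of_finrank_eq`), and the sum
of the two has dimension `2e`, so it is `sp G`.  `Nar` with `H = 9 B |W|`: `9 |cone| ≤ 9 B |W| j²`. -/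
def BlaStmt : Prop :=
  ∀ (E : Type) [NormedAddCommGroup E] [NormedSpace ℝ E] (f : ℂ →+ E) (G : AddSubgroup ℂ)
    (W : Finset ℝ) (e : ℕ) (ρ j B : ℝ), Blk f G W e ρ j B →
      Nar f G W j (9 * B * W.card) ∧ Two (sp G) W ∧
      ∀ t ∈ W, sp G ⊓ sl t = bs f (lp G t) ρ ∧
        finrank ℚ (sp G ⊓ sl t : Submodule ℚ ℂ) = e

/-- ROW PRO (medium), uses BLA TRA PRA PRF PRC.  A short vector generates its line over the algebra.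
PROOF.  Suppose not, `y ∈ sp G ⊓ sl t₁` is not of the form `q x`.  `H = 9 B |W|`.  `|W| ≥ 5`: there is a third slope; PRA gives
`π`.  For every `t ∈ W`: (i) there is `0 ≠ y ∈ lp G t` with `‖f y‖ ≤ 2`, `π y = 0`: for `t = t₁` take
`y = x`; for `t ≠ t₁` choose `l ∈ W`, `l ≠ t, t₁`; TRA (`‖f x‖ (H+1) ≤ 256 H⁴ ‖f x‖ ≤ 1`):
`c x = y + z`, `y ∈ lp G t`, `z ∈ lp G l`, `‖f y‖ ≤ 16 H² ‖f x‖ ≤ 1`; `0 = π (c x) = π y + π z`
with `π y` of slope `t`, `π z` of slope `l`: `π y = - π z` is `0` (`eq_zero_of_slopes`); `y ≠ 0` since otherwise `c x = z` has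
the slopes `t₁` and `l`, so `x = 0`.  (ii) there is `y ∈ lp G t` with `‖f y‖ ≤ 1`, `π y ≠ 0`: the elements of
`bl f (lp G t) ρ` span `sp G ⊓ sl t` over `ℚ` (BLA) and `π` is `ℚ`-linear and not `0` on it.
So `Fib f G π t j` for all `t ∈ W` (PRF), and PRC: `(|W| j)² ≤ 5184 |cone| ≤ 5184 B |W| j²`, so
`|W| ≤ 5184 B`, contradiction to `large`. -/
def ProStmt : Prop :=
  ∀ (E : Type) [NormedAddCommGroup E] [NormedSpace ℝ E] (f : ℂ →+ E) (G : AddSubgroup ℂ)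
    (W : Finset ℝ) (e : ℕ) (ρ j B t₁ t₂ : ℝ) (x : ℂ), Blk f G W e ρ j B → t₁ ∈ W → t₂ ∈ W →
      t₁ ≠ t₂ → x ∈ lp G t₁ → x ≠ 0 → 256 * (9 * B * W.card) ^ 4 * ‖f x‖ ≤ 1 →
      ∀ y ∈ sp G ⊓ sl t₁, ∃ q ∈ Algebra.adjoin ℚ (Rat4 W t₁ t₂), ((q : ℝ) : ℂ) * x = y

/-! ### Heights -/

/-- ROW POL (medium), uses SEP.  Integer equations of bounded height.
PROOF.  `t = ‖f x‖ > 0` is the smallest size of a nonzero element of `V`.  For `q ≤ e` let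
`y_q = c_q w^q x ∈ V`, `1 ≤ c_q ≤ K`, `‖f y_q‖ ≤ K t`.  Let `N = ⌊(3 (e+1) K)^e⌋`.  The elements
`∑ n_q y_q`, `0 ≤ n_q ≤ N` (`n : Fin (e+1) → ..`), are in `V` and have size `≤ (e+1) N K t`, so by SEP
(`bs ≤ sp V`, rank `≤ e`) there are at most `(1 + 2 (e+1) N K)^e ≤ (3 (e+1) K)^e (N+1)^e < (N+1)^(e+1)` of them: two different
`n ≠ n'` have the same sum: `∑ (n_q - n'_q) c_q w^q x = 0`, so `w` is a root of
`∑ (n_q - n'_q) c_q X^q ≠ 0`, with coefficients `≤ N K ≤ A`. -/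
def PolStmt : Prop :=
  ∀ (E : Type) [NormedAddCommGroup E] [NormedSpace ℝ E] (f : ℂ →+ E) (V : AddSubgroup ℂ)
    (e A : ℕ) (K w : ℝ) (x : ℂ), Dsc f V → FiniteDimensional ℚ (sp V) → finrank ℚ (sp V) ≤ e →
      1 ≤ K → x ∈ V → x ≠ 0 → (∀ y ∈ V, y ≠ 0 → ‖f x‖ ≤ ‖f y‖) →
      (∀ q ≤ e, Mlt f V K (w ^ q) x) → (3 * ((e : ℝ) + 1) * K) ^ e * K ≤ A → Alg e A w

/-- ROW RTS (easy-medium).  PROOF.  The polynomials of degree `≤ e` with coefficients in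
`[-A, A]` are the image of `Fin (e+1) → Finset.Icc (-A) A`: at most `(2A+1)^(e+1)`, each nonzero one has at most
`e` real roots (`Polynomial.card_roots'` for the image in `ℝ[X]`, which is nonzero). -/
def RtsStmt : Prop :=
  ∀ e A : ℕ, ∃ S : Finset ℝ, S.card ≤ e * (2 * A + 1) ^ (e + 1) ∧ ∀ w : ℝ, Alg e A w → w ∈ S

/-- the multipliers of a short vector -/
def Out {E : Type} [NormedAddCommGroup E] (f : ℂ →+ E) (G : AddSubgroup ℂ) (e A : ℕ) (K : ℝ)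
    (x : ℂ) : Prop :=
  ∃ (w : Fin e → ℝ) (c : Fin e → ℕ), LinearIndependent ℚ w ∧ ∀ i, 1 ≤ c i ∧ (c i : ℝ) ≤ K ∧
    Alg e A (w i) ∧ (((c i : ℝ) * w i : ℝ) : ℂ) * x ∈ G ∧
    ‖f ((((c i : ℝ) * w i : ℝ) : ℂ) * x)‖ ≤ K * ‖f x‖

/-- ROW BCK (medium-strong), uses BLA ALG MUL WRD GEN PRO POL SEP.  What a good block gives.
PROOF.  Choose `t₁ ≠ t₂` in `W`.  `H = 9 B |W|`, `K = 256 H⁴ ≥ 1`.  BLA: `Nar f G W j H`, `sp G ⊓ sl t₁` is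
spanned by `bl f (lp G t₁) ρ` and has dimension `e ≥ 1`, so `lp G t₁` has a nonzero element of size `≤ ρ`;
let `x` be a nonzero element of `lp G t₁` of least size (the ball of radius `ρ` is finite), `‖f x‖ ≤ ρ`.
SEP for `V = lp G t₁` (all `bs ≤ sp V ≤ sp G ⊓ sl t₁` have dimension `≤ e`), `r = 1`:
`j ≤ (1 + 2/‖f x‖)^e ≤ (3/‖f x‖)^e`.
`F = adjoin ℚ (Rat4 W t₁ t₂)`, `q ↦ q x` maps `F` injectively (`x ≠ 0`) onto `sp G ⊓ sl t₁` (into: ALG; onto: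
PRO, `K ‖f x‖ ≤ K^(e²+1) ρ ≤ 1`).  So `F` is finite dimensional of dimension `e`; GEN gives `w_i`,
independent over `ℚ`, `w_i = l_i.prod`, length `≤ e`.  For `q ≤ e` the number `w_i^q` is the product
of a list (the `q`-fold concatenation of `l_i`) of length `≤ e²`, so WRD with `Q = Rat4 W t₁ t₂` (its hypothesis is
MUL; `K^(e²+1) ‖f x‖ ≤ 1`) gives `Mlt f (lp G t₁) (K^(e²)) (w_i^q) x` (`Mlt` is monotone in `K`); POL for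
`V = lp G t₁` and `K^(e²)`: `Alg e A (w_i)`.  With the list `l_i` itself: `Mlt f (lp G t₁) (K^e) (w_i) x`,
which gives `c_i` and the last two properties. -/
def BckStmt : Prop :=
  ∀ (E : Type) [NormedAddCommGroup E] [NormedSpace ℝ E] (f : ℂ →+ E) (G : AddSubgroup ℂ)
    (W : Finset ℝ) (e A : ℕ) (ρ j B K : ℝ), Blk f G W e ρ j B →
      K = 256 * (9 * B * W.card) ^ 4 → K ^ (e * e + 1) * ρ ≤ 1 →
      (3 * ((e : ℝ) + 1) * K ^ (e * e)) ^ e * K ^ (e * e) ≤ A →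
      ∃ t ∈ W, ∃ x ∈ lp G t, x ≠ 0 ∧ ‖f x‖ ^ e * j ≤ 3 ^ e ∧ Out f G e A (K ^ e) x

/-- ROW FNL (medium), uses PKV.  Many short vectors with the same multipliers give a rich line.
PROOF.  `R = Q^(1/e)` (`Real.rpow`), so `‖f (μ_i x)‖ ≤ R`.  `f' : ℂ →+ (Fin e → E)`,
`f' x = (f (μ_i x))_i` (sup norm).  Let `ρ = 4 R |X|^(-1/(2e))`.  If the elements of `X` were `ρ`-separated for
`f'`, then PKV for `M = sp G` would give `|X| ≤ (1 + 2R/ρ)^(2e) = (1 + |X|^(1/(2e))/2)^(2e) < |X|` (because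
`|X|^(1/(2e)) > 2`).  So there are `x ≠ x'` in `X` with `‖f (μ_i u)‖ < ρ` for all `i`, `u = x - x' ≠ 0`.  `z = u`,
`V = lz G u` contains all `μ_i u`.  `m = ⌊1/(e ρ)⌋` (if `e ρ > 1` then `(1/(eρ))^(2e) ≤ 1 ≤ cnt²`).  The
`(m+1)^e` elements `∑ n_i μ_i u`, `0 ≤ n_i ≤ m`, are different (`μ` is independent over `ℚ`, `u ≠ 0`)
and have size `≤ e m ρ ≤ 1`, so `cnt f V 1 ≥ (1/(eρ))^e` and
`cnt² ≥ (eρ)^(-2e) = |X| / (4 e R)^(2e) = |X| / ((4e)^(2e) Q²)`. -/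
def FnlStmt : Prop :=
  ∀ (E : Type) [NormedAddCommGroup E] [NormedSpace ℝ E] (f : ℂ →+ E) (G : AddSubgroup ℂ)
    (e : ℕ) (μ : Fin e → ℝ) (X : Finset ℂ) (Q : ℝ), Dsc f G → FiniteDimensional ℚ (sp G) →
      finrank ℚ (sp G) ≤ 2 * e → 1 ≤ e → LinearIndependent ℚ μ → 0 < Q →
      (∀ x ∈ X, x ∈ G ∧ ∀ i, ((μ i : ℝ) : ℂ) * x ∈ G ∧ ‖f (((μ i : ℝ) : ℂ) * x)‖ ^ e ≤ Q) →
      (2 : ℝ) ^ (2 * e) < X.card →
      ∃ z : ℂ, z ≠ 0 ∧ (X.card : ℝ) ≤ (4 * e) ^ (2 * e) * Q ^ 2 * (cnt f (lz G z) 1 : ℝ) ^ 2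

/-- ROW TPL (medium), uses RTS FNL.  Pigeonhole over the universal finite set of multipliers.
PROOF.  Choose `w_x, c_x` for every `x ∈ X`.  `(c_x, w_x)` lies in `(Fin e → range (⌊K⌋ + 1)) × (Fin e → S)`
with `S` from RTS: at most `T` possibilities.  Some `(c, w)` occurs for `X' ⊂ X` with `|X| ≤ T |X'|`.
`μ_i = c_i w_i` is independent over `ℚ` (`c_i ≥ 1`); `‖f (μ_i x)‖^e ≤ K^e ‖f x‖^e ≤ K^e 3^e / j = Q`.
If `|X'| ≤ 2^(2e)` the first case.  Otherwise FNL: `|X'| ≤ (4e)^(2e) (3K)^(2e) / j² cnt²`. -/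
def TplStmt : Prop :=
  ∀ (E : Type) [NormedAddCommGroup E] [NormedSpace ℝ E] (f : ℂ →+ E) (G : AddSubgroup ℂ)
    (e A : ℕ) (X : Finset ℂ) (K j T : ℝ), Dsc f G → FiniteDimensional ℚ (sp G) →
      finrank ℚ (sp G) ≤ 2 * e → 1 ≤ e → 1 ≤ K → 0 < j →
      T = ((K + 1) * (e * (2 * A + 1) ^ (e + 1))) ^ e →
      (∀ x ∈ X, x ∈ G ∧ ‖f x‖ ^ e * j ≤ 3 ^ e ∧ Out f G e A K x) →
      (X.card : ℝ) ≤ T * 2 ^ (2 * e) ∨ ∃ z : ℂ, z ≠ 0 ∧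
        (X.card : ℝ) * j ^ 2 ≤ T * (12 * e * K) ^ (2 * e) * (cnt f (lz G z) 1 : ℝ) ^ 2

/-! ### The thick case -/

/-- ROW DIM (medium-strong), uses COV SLC GRO.  Most lines have half of the rank at a small scale.
PROOF.  `ρ = κ L τ ≤ 1`, `τ ≤ ρ/2`, `κ = 36 (72 (d+2))^d` (`≥ 2`).  For `t ∈ Θ` let
`h_t = finrank (sp (lp G t))`, `e_t = finrank (bs f (lp G t) ρ) ≤ h_t`.  Two different slopes have
`h_s + h_t ≤ d` (disjoint subspaces of `sp G`), so at most one slope has `2 h_t > d`.  Call `t` bad if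
`2 h_t ≤ d` and `2 e_t < d`.  For bad `t`: COV (`r = 1, r' = ρ`): `j ≤ (3/ρ)^(h_t) cnt f (lp G t) ρ`; COV
(`r = ρ, r' = τ`): `cnt f (lp G t) ρ ≤ (3ρ/τ)^(e_t) cnt f (lp G t) τ`.  So
`cnt f (lp G t) τ ≥ j 3^(-d) ρ^(h_t - e_t) τ^(e_t) = j 3^(-d) (κL)^(h_t - e_t) τ^(h_t)`, and its square is
`≥ q² := j² 9^(-d) κ L τ^d`: if `2 h_t = d` then `h_t - e_t ≥ 1` and `(κL)² ≥ κL`; if `2 h_t ≤ d - 1` then
`τ^(2 h_t) ≥ τ^(d-1)` and `1/τ = κL/ρ ≥ κL`.  `q ≥ 3` by the hypothesis `9 * 9^d ≤ j² τ^d`.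
SLC at the scale `τ`: `(#bad - 1) q² ≤ 9 cnt f G (2τ)`, GRO (`r = 2τ`; `bs f G τ = sp G` has dimension `d`):
`cnt f G (2τ) ≤ (8 (d+2) τ)^d cnt f G 1 ≤ (8 (d+2) τ)^d L |Θ| j²`.  So
`(#bad - 1) κ ≤ 9 (72 (d+2))^d |Θ|`, `#bad ≤ |Θ|/4 + 1`.  The slopes which are not bad and have `2 h_t ≤ d`
satisfy `d ≤ 2 e_t ≤ 2 h_t ≤ d`; there are at least `|Θ| - |Θ|/4 - 2 ≥ |Θ|/3` of them (`|Θ| ≥ 12`). -/
def DimStmt : Prop :=
  ∀ d : ℕ, ∃ κ : ℝ, 2 ≤ κ ∧ ∀ (E : Type) [NormedAddCommGroup E] [NormedSpace ℝ E] (f : ℂ →+ E)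
    (G : AddSubgroup ℂ) (Θ : Finset ℝ) (L j τ : ℝ), Dsc f G → FiniteDimensional ℚ (sp G) →
      finrank ℚ (sp G) = d → 2 ≤ L → 0 < τ → 8 * (d + 1) * (κ * L * τ) ≤ 1 →
      (∀ x ∈ G, x ∈ bs f G τ) → 12 ≤ Θ.card → 0 < j → 9 * 9 ^ d ≤ j ^ 2 * τ ^ d →
      (∀ t ∈ Θ, j ≤ cnt f (lp G t) 1) → (cnt f G 1 : ℝ) ≤ L * Θ.card * j ^ 2 →
      ∃ e : ℕ, d = 2 * e ∧ ∃ Θ' ⊆ Θ, Θ.card ≤ 3 * Θ'.card ∧
        ∀ t ∈ Θ', finrank ℚ (bs f (lp G t) (κ * L * τ)) = e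

/-- ROW BLF (medium).  The family of narrow blocks.
PROOF.  Sort `Θ` and cut it in `m = ⌊|Θ|/s⌋ ≥ |Θ|/(2s)` blocks of `s` consecutive slopes (`orderEmbOfFin`); for a
block `W` let `a, b` be its smallest and largest slope.  The cones of different blocks are disjoint
(for `x` in two of them, `x.im / x.re` would be in two disjoint intervals), so the sum of
`c(W) = |cone f G 6 a b|` is `≤ cnt f G 6 ≤ T`.  Less than `m/2` blocks (at most `m/2`) have `c(W) > 2T/m`; the others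
have `c(W) |Θ| ≤ 2 T |Θ| / m ≤ 4 s T` and there are at least `m/2 ≥ |Θ|/(4s)` of them. -/
def BlfStmt : Prop :=
  ∀ (E : Type) [NormedAddCommGroup E] [NormedSpace ℝ E] (f : ℂ →+ E) (G : AddSubgroup ℂ)
    (Θ : Finset ℝ) (s : ℕ) (T : ℝ), Dsc f G → 1 ≤ s → s ≤ Θ.card → (cnt f G 6 : ℝ) ≤ T →
      ∃ F : Finset (Finset ℝ), (∀ W ∈ F, W ⊆ Θ ∧ W.card = s ∧ ∃ a b : ℝ,
          (∀ t ∈ W, a ≤ t ∧ t ≤ b) ∧ ((cone f G 6 a b).card : ℝ) * Θ.card ≤ 4 * s * T) ∧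
        (∀ W ∈ F, ∀ W' ∈ F, W ≠ W' → Disjoint W W') ∧ Θ.card ≤ 4 * s * F.card

/-- ROW CST (medium).  Constants: all the quantities of THK are powers of `L`.
PROOF.  Every constant `≥ 1` is at most `2^k ≤ L^k`; so `B, s, K, A, T` are at most `L^k` with `k`
depending on `d` (`e ≤ d`; `⌈x⌉₊ ≤ x + 1`), then choose first `c`, then `C`. -/
def CstStmt : Prop :=
  ∀ (d : ℕ) (κ : ℝ), 2 ≤ κ → ∃ c C : ℕ, ∀ (L B K T : ℝ) (e s A : ℕ), 2 ≤ L → e ≤ d →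
    B = 12 * 13 ^ d * L → s = ⌈5184 * B⌉₊ + 5 → K = 256 * (9 * B * s) ^ 4 →
    A = ⌈(3 * ((e : ℝ) + 1) * K ^ (e * e)) ^ e * K ^ (e * e)⌉₊ →
    T = ((K ^ e + 1) * (e * (2 * A + 1) ^ (e + 1))) ^ e →
    8 * ((d : ℝ) + 1) * (κ * L * (1 / L ^ c)) ≤ 1 ∧ K ^ (e * e + 1) * (κ * L * (1 / L ^ c)) ≤ 1 ∧
    (∀ j : ℝ, L ^ C ≤ j → 3 ≤ j ∧ 9 * 9 ^ d ≤ j ^ 2 * (1 / L ^ c) ^ d) ∧
    L * (12 * s * (T * 2 ^ (2 * e))) ≤ L ^ C ∧ L * (3 * s + 12) ≤ L ^ C ∧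
    L * (12 * s * (T * (12 * e * K ^ e) ^ (2 * e))) ≤ L ^ C

/-- the structure theorem for the groups of rank at most `d` with the constant `C` -/
def Struc (d C : ℕ) : Prop :=
  ∀ (E : Type) [NormedAddCommGroup E] [NormedSpace ℝ E] (f : ℂ →+ E) (G : AddSubgroup ℂ)
    (Θ : Finset ℝ) (L j R : ℝ), Dsc f G → FiniteDimensional ℚ (sp G) → finrank ℚ (sp G) ≤ d →
      2 ≤ L → L ^ C ≤ j → 0 < R → (∀ t ∈ Θ, j ≤ cnt f (lp G t) R) →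
      (cnt f G R : ℝ) ≤ L * Θ.card * j ^ 2 →
      ∃ z : ℂ, z ≠ 0 ∧ (cnt f G R : ℝ) ≤ L ^ C * (cnt f (lz G z) R : ℝ) ^ 2

/-- ROW THK (medium-strong), uses COV DIM BLF BCK TPL CST.  The thick case.
PROOF.  `κ` from DIM, `c, C` from CST.  `τ = 1/L^c`, `ρ = κ L τ ≤ 1`.  `Θ` is not empty (`cnt ≥ 1`), for
`t ∈ Θ`, `z = ⟨1, t⟩`: `lz G z = lp G t`, so `cnt f G 1 ≤ L |Θ| j² ≤ L |Θ| cnt f (lz G z) 1 ²`: done if
`L |Θ| ≤ L^C`.  So `|Θ| > 3s + 12`, and DIM gives `e`, `Θ'`, `|Θ'| ≥ |Θ|/3 ≥ s`; `d = 2e`.  If `e = 0` then `G = 0`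
and `cnt f (lp G t) 1 = 1 < 3 ≤ j`, a contradiction; so `e ≥ 1`.  COV: `cnt f G 6 ≤ 13^d cnt f G 1`,
BLF for `Θ'`, `s`, `T₀ = 13^d L |Θ| j²`: for the blocks `W ∈ F`:
`|cone| |Θ'| ≤ 4 s 13^d L |Θ| j² ≤ 12 s 13^d L |Θ'| j²`, so `|cone| ≤ B s j²`: `Blk f G W e ρ j B`
(`large`: `s ≥ 5184 B + 5`).  BCK gives `t_W ∈ W`, `x_W ∈ lp G t_W`, `x_W ≠ 0`; for `W ≠ W'` the slopes are
different (disjoint blocks), so `x_W ≠ x_W'` (`eq_zero_of_slopes`): `X = {x_W}` has `|F|` elements and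
`|Θ| ≤ 3|Θ'| ≤ 12 s |X|`.  TPL with `K^e` in place of `K`: either
`|X| ≤ T 2^(2e)`, then `L |Θ| ≤ L 12 s T 2^(2e) ≤ L^C` (first case, done), or
`cnt f G 1 ≤ L |Θ| j² ≤ 12 L s |X| j² ≤ L 12 s T (12 e K^e)^(2e) cnt²`. -/
def ThkStmt : Prop :=
  ∀ d : ℕ, ∃ c C : ℕ, ∀ (E : Type) [NormedAddCommGroup E] [NormedSpace ℝ E] (f : ℂ →+ E)
    (G : AddSubgroup ℂ) (Θ : Finset ℝ) (L j : ℝ), Dsc f G → FiniteDimensional ℚ (sp G) →
      finrank ℚ (sp G) = d → 2 ≤ L → L ^ C ≤ j → (∀ t ∈ Θ, j ≤ cnt f (lp G t) 1) →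
      (cnt f G 1 : ℝ) ≤ L * Θ.card * j ^ 2 → (∀ x ∈ G, x ∈ bs f G (1 / L ^ c)) →
      ∃ z : ℂ, z ≠ 0 ∧ (cnt f G 1 : ℝ) ≤ L ^ C * (cnt f (lz G z) 1 : ℝ) ^ 2

/-- ROW THN (medium), uses COV.  The thin case.
PROOF.  `τ = 1/L^c ≤ 1`, `G' = G ⊓ (bs f G τ)` (as additive groups).  `bs f G τ ≤ sp G` and the inclusion
is strict, so `finrank (sp G') ≤ finrank (bs f G τ) ≤ d`.  `bl f G' τ = bl f G τ`,
`bl f (lp G' t) τ = bl f (lp G t) τ`.  With `D = d + 1`, COV gives for every subgroup `V` of `G`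
`cnt f V 1 ≤ (1 + 2/τ)^D cnt f V τ ≤ (3 L^c)^D cnt f V τ`.  Put `M = (4 L^c)^D` hence
`3 L^c ≤ 4 L^c ≤ L^(c+2)` and `M ≤ L^((c+2) D)`; `j' = j / M`, `L' = L^(1 + 2 (c+2) D)`.  Then
`j' ≤ cnt f (lp G' t) τ`, `cnt f G' τ ≤ cnt f G 1 ≤ L |Θ| j² = L M² |Θ| j'² ≤ L' |Θ| j'²`,
`L'^C' ≤ j'` if `C ≥ C' (1 + 2 (c+2) D) + (c+2) D`.  `Struc d C'` (with `R = τ`): `z ≠ 0`,
`cnt f G' τ ≤ L'^C' cnt f (lz G' z) τ ²`, and `cnt f G 1 ≤ M cnt f G τ = M cnt f G' τ ≤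
L^C cnt f (lz G z) 1 ²` (`lz G' z ≤ lz G z`, `τ ≤ 1`). -/
def ThnStmt : Prop :=
  ∀ d c C' : ℕ, Struc d C' → ∃ C : ℕ, ∀ (E : Type) [NormedAddCommGroup E] [NormedSpace ℝ E]
    (f : ℂ →+ E) (G : AddSubgroup ℂ) (Θ : Finset ℝ) (L j : ℝ), Dsc f G →
      FiniteDimensional ℚ (sp G) → finrank ℚ (sp G) = d + 1 → 2 ≤ L → L ^ C ≤ j →
      (∀ t ∈ Θ, j ≤ cnt f (lp G t) 1) → (cnt f G 1 : ℝ) ≤ L * Θ.card * j ^ 2 →
      ¬ (∀ x ∈ G, x ∈ bs f G (1 / L ^ c)) →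
      ∃ z : ℂ, z ≠ 0 ∧ (cnt f G 1 : ℝ) ≤ L ^ C * (cnt f (lz G z) 1 : ℝ) ^ 2

/-- ROW STR (easy-medium), uses THK THN.  Structure theorem.
PROOF.  `Struc d C` implies `Struc d C'` for `C ≤ C'` (`L ≥ 2`).  Induction on `d`.  `d = 0`: `sp G = 0`,
`G = 0`, `cnt f G R = 1`, `z = 1`.  Step: `Struc d C'` given.  If `finrank (sp G) ≤ d` use it.  Otherwise the
rank is `d + 1`; replace `f` by `f' = R⁻¹ • f` (`bl f' G r = bl f G (r R)`, `Dsc f' G`), so `R = 1`;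
`c, C₁` from THK for `d + 1`, `C₂` from THN for `d, c, C'`; `C = max`. -/
def StrStmt : Prop := ∀ d : ℕ, ∃ C : ℕ, Struc d C

/-! ### From distances to lines -/

/-- ROW ENG (easy-medium).  PROOF.  Let `Q` be the number of the `(a, b, a', b') ∈ P⁴` with
`‖a - b‖ = ‖a' - b'‖`.  Cauchy-Schwarz over the `nd P` values: `|P|⁴ ≤ nd P * Q` (see
`card_sq_le` in `Pool.Agent.Helper53_FCM.Dist`).  `a - b, a' - b' ∈ bl f G 2`, and a given difference has at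
most `|P|` representations: `Q ≤ |P|² #{(w, w') ∈ (bl f G 2)² : ‖w‖ = ‖w'‖}`.  The map
`(w, w') ↦ (w - w', w + w')` is injective into the pairs of `(bl f G 4)²` with scalar product `0`
(`|w|² - |w'|²`).  Divide by `|P|²` (`P` empty: trivial). -/
def EngStmt : Prop :=
  ∀ (E : Type) [NormedAddCommGroup E] [NormedSpace ℝ E] (f : ℂ →+ E) (G : AddSubgroup ℂ)
    (P : Finset ℂ) (p₀ : ℂ), Dsc f G → (∀ p ∈ P, p - p₀ ∈ bl f G 1) →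
      (P.card : ℝ) ^ 2 ≤ nd P * ((bl f G 4 ×ˢ bl f G 4).filter
        (fun p => p.1.re * p.2.re + p.1.im * p.2.im = 0)).card

/-- ROW PRP (medium).  PROOF.  The pairs with `u = 0` or `v = 0` are at most `2 cnt f G 4`.  For `u ≠ 0`, `v ≠ 0`
orthogonal, `u.re ≠ 0`, `v.re ≠ 0`; the slopes `s = u.im/u.re`, `t = v.im/v.re` satisfy `1 + s t = 0`, so
`t = -1/s`, `s ≠ 0`.  With `m_s` = number of the nonzero `u ∈ bl f G 4` of slope `s` the number of the pairs is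
`∑_(s ∈ T, s ≠ 0) m_s m_(-1/s) ≤ ∑ (m_s² + m_(-1/s)²)/2 ≤ ∑_(s ∈ T) m_s²` (`s ↦ -1/s` is an injection on
`s ≠ 0`, and `m = 0` outside `T`).  `m_s ≤ cnt f (lp G s) 4`. -/
def PrpStmt : Prop :=
  ∀ (E : Type) [NormedAddCommGroup E] [NormedSpace ℝ E] (f : ℂ →+ E) (G : AddSubgroup ℂ),
    Dsc f G → (∀ u ∈ bl f G 4, u.re = 0 → u = 0) →
      ((bl f G 4 ×ˢ bl f G 4).filter (fun p => p.1.re * p.2.re + p.1.im * p.2.im = 0)).card ≤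
        2 * cnt f G 4 + ∑ t ∈ ((bl f G 4).filter (fun u => u ≠ 0)).image
          (fun u => u.im / u.re), (cnt f (lp G t) 4) ^ 2

/-- ROW CLS (medium).  Dyadic classes.  `N(j)` = number of the `t ∈ T` with `j ≤ m t`.
PROOF.  Suppose the conclusion fails.  For `i ≥ 0` let `x_i = N(2^i) 4^i / n`; only `2^i ≤ n` matter,
at most `1 + log n / log 2 ≤ 2 (1 + log n)` values of `i`.  `∑ (m t)² ≤ 4 ∑_i N(2^i) 4^i` (the `t` with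
`2^i ≤ m t < 2^(i+1)`).  `x_i ≤ K`: for `2^i ≥ 3` by hypothesis, for `i = 0, 1`
`N(2^i) 4^i ≤ 9 N(3) ≤ K n` (`m t ≥ 3`).  If `x_i ≥ 1/(16 (1 + log n))` put `L = max (2, 1/x_i)`,
`j = 2^i`; `n = N 4^i / x_i ≤ L N j²`, so the conclusion fails only if `2^i < L^C₀`: `i < C₀` or
`2^i < x_i^(-C₀)`, i.e. `x_i < θ^i` with `θ = 2^(-1/C₀) < 1` (`C₀ ≥ 1`).  So
`∑ x_i ≤ 2 (1 + log n)/(16 (1 + log n)) + C₀ K + 1/(1 - θ)` and `B = 4 (1 + C₀ K + 1/(1-θ)) + 1` is a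
contradiction to `B n ≤ ∑ (m t)² ≤ 4 n ∑ x_i`. -/
def ClsStmt : Prop :=
  ∀ (K : ℝ) (C₀ : ℕ), 1 ≤ K → 1 ≤ C₀ → ∃ B : ℝ, 1 ≤ B ∧ ∀ (T : Finset ℝ) (m : ℝ → ℕ) (n : ℝ),
    1 ≤ n → (∀ t ∈ T, 3 ≤ m t ∧ (m t : ℝ) ≤ n) →
    (∀ j : ℝ, 3 ≤ j → ((T.filter (fun t => j ≤ m t)).card : ℝ) * j ^ 2 ≤ K * n) →
    B * n ≤ ∑ t ∈ T, (m t : ℝ) ^ 2 →
    ∃ L j : ℝ, 2 ≤ L ∧ L ≤ 16 * (1 + Real.log n) ∧ L ^ C₀ ≤ j ∧
      n ≤ L * (T.filter (fun t => j ≤ m t)).card * j ^ 2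

open Classical in
/-- ROW PAR (easy-medium).  Pigeonhole over the parallel lines.
PROOF.  `p ~ q` iff `q - p ∈ lin z` is an equivalence relation on `P`; choose representatives
`p_c`.  `(c, v) ↦ p_c - p₀ + v`, `v ∈ bl f (lz G z) 4`, is injective into `bl f G 5` (if
`p_c + v = p_c' + v'` then `p_c ~ p_c'`, `c = c'`).  So the number of classes times `cnt f (lz G z) 4` is
`≤ cnt f G 5`, and the largest class has at least `|P| / (number of classes)` elements. -/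
def ParStmt : Prop :=
  ∀ (E : Type) [NormedAddCommGroup E] [NormedSpace ℝ E] (f : ℂ →+ E) (G : AddSubgroup ℂ)
    (P : Finset ℂ) (p₀ z : ℂ), Dsc f G → P.Nonempty → (∀ p ∈ P, p - p₀ ∈ bl f G 1) →
      ∃ p ∈ P, (P.card : ℝ) * cnt f (lz G z) 4 ≤
        cnt f G 5 * (P.filter (fun q => q - p ∈ lin z)).card

/-- ROW ROT (easy).  PROOF.  `ω = exp (i θ)`: for every nonzero `u` only finitely many `θ ∈ [0, 1]`
(or countably many `ω`) have `Re (ω u) = 0`, e.g. `ω = (1 + i s)/|1 + i s|` and `u.re = s u.im`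
has at most one solution `s` for `u.im ≠ 0` and none for `u.im = 0, u ≠ 0`; choose `s` outside a finite set. -/
def RotStmt : Prop :=
  ∀ S : Finset ℂ, ∃ ω : ℂ, ‖ω‖ = 1 ∧ ∀ u ∈ S, u ≠ 0 → (ω * u).re ≠ 0

open Classical in
/-- the conclusion of the main theorem -/
def Rich (P : Finset ℂ) (c : ℝ) (A : ℕ) : Prop :=
  ∃ z : ℂ, z ≠ 0 ∧ ∃ p ∈ P, c * Real.sqrt P.card ≤
    (Real.log P.card) ^ A * (P.filter (fun q => q - p ∈ lin z)).card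

/-- ROW MA1 (medium-strong), uses COV SLC STR ENG PRP CLS PAR.  The main theorem if there is no vertical vector.
PROOF.  `C` from STR (increase it to be `≥ 1`), `K' = 18 * 5^d`, `B` from CLS for `K', C`.  `n = cnt f G 4`,
`9^(-d) n ≤ cnt f G 1 ≤ K |P|` by COV (`1 + 8/1 = 9`).  Also `|P| ≤ n` (`p ↦ p - p₀`).
`nd P ≥ 1` gives `|P| ≥ 1/ε`, so `log |P| ≥ 1` if `ε ≤ 1/3`.
ENG and PRP: `|P|² ≤ nd P (2 n + ∑_T m_t²)`, `m_t = cnt f (lp G t) 4`, so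
`|P|/ε ≤ 2 n + ∑`, `n/(9^d K ε) ≤ |P|/ε`; for `ε ≤ 1/(9^d K (B + 2))`: `∑ m_t² ≥ B n`.
`m_t ≥ 3` for `t ∈ T` (`0, u, -u`), `m_t ≤ n`.  FIRST CASE: some `t ∈ T` has `m_t² > n`: `z = ⟨1, t⟩`
(`lz G z = lp G t`).  SECOND CASE: all `m_t² ≤ n`.  For `j ≥ 3` and `N = N(j)`: `N = 0` trivial, `N = 1`:
`j² ≤ m_t² ≤ n`, `N ≥ 2`: SLC (`r = 4`) `(N-1) j² ≤ 9 cnt f G 8 ≤ 9 * 5^d n` (COV: `1 + 16/4 = 5`), `N ≤ 2 (N-1)`: in all cases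
`N j² ≤ K' n`.  CLS: `L, j`, and `Struc d C` with `R = 4`: `z ≠ 0`, `n ≤ L^C cnt f (lz G z) 4 ²`.
In both cases `n ≤ (16 (1 + log n))^C cnt f (lz G z) 4 ²`, PAR: some `p` with
`|P| cnt f (lz G z) 4 ≤ cnt f G 5 M`, `cnt f G 5 ≤ 11^d cnt f G 1 ≤ 11^d K |P|` (COV), so
`cnt f (lz G z) 4 ≤ 11^d K M`.  Finally `sqrt |P| ≤ sqrt n` and
`(16 (1 + log n))^(C/2) ≤ (16 (1 + log n))^C ≤ (C₁ log |P|)^C` since `n ≤ 9^d K |P|` and `log |P| ≥ 1`.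
`A = C`. -/
def Ma1Stmt : Prop :=
  ∀ (d : ℕ) (K : ℝ), ∃ (ε c : ℝ) (A : ℕ), 0 < ε ∧ 0 < c ∧
    ∀ (E : Type) [NormedAddCommGroup E] [NormedSpace ℝ E] (f : ℂ →+ E) (G : AddSubgroup ℂ)
      (P : Finset ℂ) (p₀ : ℂ), Dsc f G → FiniteDimensional ℚ (sp G) → finrank ℚ (sp G) ≤ d →
      (∀ u ∈ bl f G 4, u.re = 0 → u = 0) → P.Nonempty → (∀ p ∈ P, p - p₀ ∈ bl f G 1) →
      (cnt f G 1 : ℝ) ≤ K * P.card → (nd P : ℝ) ≤ ε * P.card → Rich P c A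

/-- ROW MA2 (medium), uses MA1 ROT.  The main theorem.
PROOF.  ROT for `S = bl f G 4` gives `ω`.  Apply MA1 to `G' = G.map (AddMonoidHom.mulLeft ω)`,
`f' = f.comp (AddMonoidHom.mulLeft ω⁻¹)`, `P' = P.image (ω * ·)`, `ω p₀`: the balls of `G'` are the `ω`-images of the balls of `G`,
`sp G'` is the image of `sp G` under the `ℚ`-linear map `x ↦ ω x` (same dimension), `nd P' = nd P` since
`|ω| = 1`, and `q' - p' ∈ lin z'` iff `q - p ∈ lin (ω⁻¹ z')`. -/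
def Ma2Stmt : Prop :=
  ∀ (d : ℕ) (K : ℝ), ∃ (ε c : ℝ) (A : ℕ), 0 < ε ∧ 0 < c ∧
    ∀ (E : Type) [NormedAddCommGroup E] [NormedSpace ℝ E] (f : ℂ →+ E) (G : AddSubgroup ℂ)
      (P : Finset ℂ) (p₀ : ℂ), Dsc f G → FiniteDimensional ℚ (sp G) → finrank ℚ (sp G) ≤ d →
      P.Nonempty → (∀ p ∈ P, p - p₀ ∈ bl f G 1) →
      (cnt f G 1 : ℝ) ≤ K * P.card → (nd P : ℝ) ≤ ε * P.card → Rich P c A

/-- ROW CVX (medium), uses MA2.  Convex progressions.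
PROOF.  `v` is independent over `ℚ`: extend it to a basis of `ℂ` over `ℚ` (`LinearIndependent.extend`, or
a left inverse of the injective map) to get a `ℚ`-linear, so additive, `f : ℂ →+ E` with
`f (∑ q_i v_i) = ∑ q_i u_i` (`E` is a rational vector space through `ℝ`).  `G` = the additive group
generated by the `v_i` = `{∑ x_i v_i : x ∈ ℤ^d}`.  The ball `bl f G r` corresponds to
`{x ∈ ℤ^d : ‖∑ x_i u_i‖ ≤ r}` which is finite (`u` is independent over `ℝ`: the coordinates are continuous on the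
finite dimensional span, so bounded).  `sp G` is spanned by the `v_i`: dimension `≤ d`. -/
def CvxStmt : Prop :=
  ∀ (d : ℕ) (K : ℝ), ∃ (ε c : ℝ) (A : ℕ), 0 < ε ∧ 0 < c ∧
    ∀ (E : Type) [NormedAddCommGroup E] [NormedSpace ℝ E] (u : Fin d → E) (v : Fin d → ℂ)
      (P : Finset ℂ) (p₀ : ℂ), LinearIndependent ℝ u → LinearIndependent ℚ v → P.Nonempty →
      (∀ p ∈ P, ∃ x : Fin d → ℤ, ‖∑ i, (x i : ℝ) • u i‖ ≤ 1 ∧ p = p₀ + ∑ i, (x i : ℂ) * v i) →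
      (({x : Fin d → ℤ | ‖∑ i, (x i : ℝ) • u i‖ ≤ 1}.ncard : ℕ) : ℝ) ≤ K * P.card →
      (nd P : ℝ) ≤ ε * P.card → Rich P c A

/-- ROW BOX (easy-medium), uses CVX.  Boxes with arbitrary sides.
PROOF.  CVX with `E = Fin d → ℝ` (sup norm), `u_i = (N_i)⁻¹ e_i`: `‖∑ x_i u_i‖ ≤ 1` iff `|x_i| ≤ N_i` for
all `i`; the number of these `x` is `∏ (2 N_i + 1)`. -/
def BoxStmt : Prop :=
  ∀ (d : ℕ) (K : ℝ), ∃ (ε c : ℝ) (A : ℕ), 0 < ε ∧ 0 < c ∧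
    ∀ (N : Fin d → ℕ) (v : Fin d → ℂ) (P : Finset ℂ) (p₀ : ℂ), (∀ i, 1 ≤ N i) →
      LinearIndependent ℚ v → P.Nonempty →
      (∀ p ∈ P, ∃ x : Fin d → ℤ, (∀ i, |x i| ≤ N i) ∧ p = p₀ + ∑ i, (x i : ℂ) * v i) →
      (∏ i, (2 * (N i : ℝ) + 1)) ≤ K * P.card →
      (nd P : ℝ) ≤ ε * P.card → Rich P c A

end Pool.Agent.PLG
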